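import Pool.Agent.Results.MP_3e3c2c_co.TreeCoverQuadratic

/-!
# MP_6df53f_co: monochromatic cycle partitions under a minimum degree condition

Disproof of Q1: there is an absolute constant `c > 0` such that for every fixed `δ ∈ (0,1/2)` and all
sufficiently large `r` one has `cp_r(δ) ≥ c r²`; in particular no constant `K` satisfies
`cp_r(δ) ≤ K r ⌈r / log (1/δ)⌉` for all `r ≥ 2` and `δ ∈ (0,1/2)`.
-/

open Finset Filter
open scoped ENNReal

namespace Pool.Agent.Results.MP_6df53f_co.CyclePartitionQuadratic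

open Pool.Agent.R982.TC

variable {A : Type} {r : ℕ}

/-- A monochromatic cycle: a subgraph all of whose edges have one colour and which is a cycle, where
the empty graph, a single vertex and a single edge each count as a cycle. -/
def IsMonoCycle (X : ColGraph A r) (H : X.G.Subgraph) : Prop :=
  (H = ⊥ ∨ (∃ v : A, H = X.G.singletonSubgraph v) ∨
    (∃ (u v : A) (h : X.G.Adj u v), H = X.G.subgraphOfAdj h) ∨
    (∃ (v : A) (w : X.G.Walk v v), w.IsCycle ∧ H = w.toSubgraph)) ∧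
  ∃ i : Fin r, ∀ (e : Sym2 A) (he : e ∈ H.edgeSet), X.χ ⟨e, H.edgeSet_subset he⟩ = i

/-- There are `k` pairwise vertex-disjoint monochromatic cycles whose vertex sets together cover all
the vertices. -/
def HasCyclePartition (X : ColGraph A r) (k : ℕ) : Prop :=
  ∃ F : Fin k → X.G.Subgraph, (∀ i, IsMonoCycle X (F i)) ∧
    (∀ i j, i ≠ j → Disjoint (F i).verts (F j).verts) ∧ ∀ v : A, ∃ i, v ∈ (F i).verts

/-- The least number of cycles in such a partition. -/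
noncomputable def cp (X : ColGraph A r) : ℕ∞ :=
  ⨅ (k : ℕ) (_ : HasCyclePartition X k), (k : ℕ∞)

/-- `cp_r(δ) = limsup_{n → ∞} max_{G ∈ 𝒢(n, r, δ)} cp(G)`. -/
noncomputable def cpr (r : ℕ) (δ : ℝ) : ℕ∞ :=
  limsup (fun n : ℕ => ⨆ X : {X : ColGraph (Fin n) r // X.MinDeg δ}, cp X.1) atTop

/-- Q1 of the problem. -/
def Q1 : Prop :=
  ∃ K : ℝ, 0 < K ∧ ∀ r : ℕ, 2 ≤ r → ∀ δ : ℝ, 0 < δ → δ < 1 / 2 →
    ((cpr r δ : ℕ∞) : ℝ≥0∞) ≤
      ENNReal.ofReal (K * (r : ℝ) * ((⌈(r : ℝ) / Real.log (1 / δ)⌉ : ℤ) : ℝ))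

/-- A spanning subgraph of a subgraph. -/
def treeSub {G : SimpleGraph A} (H : G.Subgraph) (T : SimpleGraph H.verts) (hT : T ≤ H.coe) :
    G.Subgraph where
  verts := H.verts
  Adj a b := ∃ (ha : a ∈ H.verts) (hb : b ∈ H.verts), T.Adj ⟨a, ha⟩ ⟨b, hb⟩
  adj_sub := by
    rintro a b ⟨ha, hb, h⟩
    exact H.adj_sub (hT h)
  edge_vert := by
    rintro a b ⟨ha, _, _⟩
    exact ha
  symm := by
    constructor
    rintro a b ⟨ha, hb, h⟩
    exact ⟨hb, ha, h.symm⟩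

lemma treeSub_le {G : SimpleGraph A} (H : G.Subgraph) (T : SimpleGraph H.verts)
    (hT : T ≤ H.coe) : treeSub H T hT ≤ H := by
  refine ⟨le_refl _, ?_⟩
  rintro a b ⟨ha, hb, h⟩
  exact hT h

lemma treeSub_coe {G : SimpleGraph A} (H : G.Subgraph) (T : SimpleGraph H.verts)
    (hT : T ≤ H.coe) : (treeSub H T hT).coe = T := by
  ext a b
  constructor
  · rintro ⟨ha, hb, h⟩
    exact h
  · intro h
    exact ⟨a.2, b.2, h⟩

/-- A connected monochromatic subgraph can be replaced by a monochromatic tree. -/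
lemma exists_tree [Finite A] (X : ColGraph A r) (H : X.G.Subgraph) (hc : H.Connected) (i : Fin r)
    (hi : ∀ (e : Sym2 A) (he : e ∈ H.edgeSet), X.χ ⟨e, H.edgeSet_subset he⟩ = i) :
    ∃ H' : X.G.Subgraph, X.IsMonoTree H' ∧ H'.verts = H.verts := by
  obtain ⟨T, hT, htree⟩ := hc.coe.exists_isTree_le
  refine ⟨treeSub H T hT, ⟨?_, i, ?_⟩, rfl⟩
  · rw [treeSub_coe]
    exact htree
  · intro e he
    exact hi e (SimpleGraph.Subgraph.edgeSet_mono (treeSub_le H T hT) he)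

lemma tc_le_cp [Finite A] (hr : 1 ≤ r) (X : ColGraph A r) : X.tc ≤ cp X := by
  unfold ColGraph.tc cp
  refine le_iInf fun k => le_iInf fun hk => ?_
  obtain ⟨F, hF, _, hcov⟩ := hk
  rcases isEmpty_or_nonempty A with hA | ⟨⟨v0⟩⟩
  · refine iInf_le_of_le 0 (iInf_le_of_le ⟨fun i => i.elim0, fun i => i.elim0,
      fun v => (hA.false v).elim⟩ ?_)
    simp
  · have hex : ∀ i : Fin k, ∃ H' : X.G.Subgraph, X.IsMonoTree H' ∧ (F i).verts ⊆ H'.verts := by
      intro i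
      obtain ⟨hcyc, c, hc⟩ := hF i
      rcases hcyc with h | ⟨v, h⟩ | ⟨u, v, huv, h⟩ | ⟨v, w, _, h⟩
      · obtain ⟨H', h1, h2⟩ := exists_tree X (X.G.singletonSubgraph v0)
          SimpleGraph.Subgraph.singletonSubgraph_connected ⟨0, hr⟩ (by
            intro e he
            simp at he)
        refine ⟨H', h1, ?_⟩
        rw [h]
        intro x hx
        exact absurd hx (by simp)
      · obtain ⟨H', h1, h2⟩ := exists_tree X (F i)
          (by rw [h]; exact SimpleGraph.Subgraph.singletonSubgraph_connected) c hc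
        exact ⟨H', h1, h2.symm.subset⟩
      · obtain ⟨H', h1, h2⟩ := exists_tree X (F i)
          (by rw [h]; exact SimpleGraph.Subgraph.subgraphOfAdj_connected huv) c hc
        exact ⟨H', h1, h2.symm.subset⟩
      · obtain ⟨H', h1, h2⟩ := exists_tree X (F i)
          (by rw [h]; exact w.toSubgraph_connected) c hc
        exact ⟨H', h1, h2.symm.subset⟩
    choose F' hF' hsub using hex
    refine iInf_le_of_le k (iInf_le_of_le ⟨F', hF', fun v => ?_⟩ le_rfl)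
    obtain ⟨i, hi⟩ := hcov v
    exact ⟨i, hsub i hi⟩

lemma tcr_le_cpr (hr : 1 ≤ r) (δ : ℝ) : tcr r δ ≤ cpr r δ := by
  unfold tcr cpr
  refine limsup_le_limsup (Eventually.of_forall fun n => ?_)
  refine iSup_le fun X => ?_
  refine (tc_le_cp hr X.1).trans ?_
  exact le_iSup (fun X : {X : ColGraph (Fin n) r // X.MinDeg δ} => cp X.1) X

/-- **Disproof of Q1.** There is an absolute constant `c > 0` such that for every `δ ∈ (0,1/2)` one
has `cp_r(δ) ≥ c r²` for all sufficiently large `r`; and there is no constant `K > 0` with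
`cp_r(δ) ≤ K r ⌈r / log (1/δ)⌉` for all `r ≥ 2`, `δ ∈ (0,1/2)`. -/
theorem result :
    (∃ c : ℝ, 0 < c ∧ ∀ δ : ℝ, 0 < δ → δ < 1 / 2 → ∀ᶠ r : ℕ in atTop,
      ENNReal.ofReal (c * (r : ℝ) ^ 2) ≤ ((cpr r δ : ℕ∞) : ℝ≥0∞)) ∧
    ¬ Q1 := by
  have hlow : ∀ δ : ℝ, 0 < δ → δ < 1 / 2 → ∀ᶠ r : ℕ in atTop,
      ENNReal.ofReal (1 / 4096 * (r : ℝ) ^ 2) ≤ ((cpr r δ : ℕ∞) : ℝ≥0∞) := by
    intro δ hδ hδ1
    filter_upwards [MP_3e3c2c_co.TreeCoverQuadratic.lower δ hδ (by linarith),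
      eventually_ge_atTop 1] with r h1 h2
    refine h1.trans ?_
    exact_mod_cast tcr_le_cpr h2 δ
  refine ⟨⟨1 / 4096, by norm_num, hlow⟩, ?_⟩
  rintro ⟨K, hK, hQ⟩
  obtain ⟨L, hL⟩ : ∃ L : ℝ, L = 16384 * K + 1 := ⟨_, rfl⟩
  have hLpos : 0 < L := by rw [hL]; positivity
  have hL1 : 1 < L := by rw [hL]; linarith
  obtain ⟨δ, hδe⟩ : ∃ δ : ℝ, δ = Real.exp (-L) := ⟨_, rfl⟩
  have hδ : 0 < δ := by rw [hδe]; exact Real.exp_pos _
  have hδ1 : δ < 1 / 2 := by
    rw [hδe]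
    have h1 : Real.exp (-L) ≤ Real.exp (-1) := Real.exp_le_exp.2 (by linarith)
    have h2 : Real.exp (-1) < 1 / 2 := by
      have h3 : (2 : ℝ) < Real.exp 1 := by
        have := Real.exp_one_gt_d9
        linarith
      rw [Real.exp_neg, one_div]
      exact inv_strictAnti₀ (by norm_num) h3
    linarith
  have hlog : Real.log (1 / δ) = L := by
    rw [hδe, one_div, ← Real.exp_neg, neg_neg, Real.log_exp]
  obtain ⟨R, hR⟩ := exists_nat_gt (16384 * K)
  have hev := (hlow δ hδ hδ1).and (eventually_ge_atTop (max R 2))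
  obtain ⟨r, hr1, hr2⟩ := hev.exists
  have hr3 : R ≤ r := le_trans (le_max_left _ _) hr2
  have hr4 : 2 ≤ r := le_trans (le_max_right _ _) hr2
  have h1 := hQ r hr4 δ hδ hδ1
  rw [hlog] at h1
  have h2 := hr1.trans h1
  have hrpos : (0 : ℝ) < (r : ℝ) := by
    have : 0 < r := by omega
    exact_mod_cast this
  have hrK : 16384 * K < (r : ℝ) := lt_of_lt_of_le hR (by exact_mod_cast hr3)
  have hceil : (((⌈(r : ℝ) / L⌉ : ℤ)) : ℝ) ≤ (r : ℝ) / L + 1 := (Int.ceil_lt_add_one _).le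
  have h3 : K * (r : ℝ) * ((⌈(r : ℝ) / L⌉ : ℤ) : ℝ) < 1 / 4096 * (r : ℝ) ^ 2 := by
    have h4 : K * (r : ℝ) * ((⌈(r : ℝ) / L⌉ : ℤ) : ℝ) ≤ K * (r : ℝ) * ((r : ℝ) / L + 1) :=
      mul_le_mul_of_nonneg_left hceil (by positivity)
    have h5 : (r : ℝ) / L ≤ (r : ℝ) / (16384 * K) :=
      div_le_div_of_nonneg_left hrpos.le (by positivity) (by rw [hL]; linarith)
    have h6 : K * (r : ℝ) * ((r : ℝ) / L + 1) ≤ K * (r : ℝ) * ((r : ℝ) / (16384 * K) + 1) :=
      mul_le_mul_of_nonneg_left (by linarith) (by positivity)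
    have h7 : K * (r : ℝ) * ((r : ℝ) / (16384 * K) + 1) = (r : ℝ) ^ 2 / 16384 + K * (r : ℝ) := by
      field_simp
    rw [h7] at h6
    nlinarith
  have hpos : 0 < 1 / 4096 * (r : ℝ) ^ 2 := by positivity
  have h6 : ENNReal.ofReal (K * (r : ℝ) * ((⌈(r : ℝ) / L⌉ : ℤ) : ℝ)) <
      ENNReal.ofReal (1 / 4096 * (r : ℝ) ^ 2) := (ENNReal.ofReal_lt_ofReal_iff hpos).2 h3
  exact absurd h2 (not_le.2 h6)

end Pool.Agent.Results.MP_6df53f_co.CyclePartitionQuadratic
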